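import Mathlib
import Pool.Agent.H.MP_f4bed7_co.T

namespace Pool.Agent.Results.MP_f4bed7_co.Tree

open SimpleGraph

/-- `S` is a `k`-net: maximal among sets with pairwise distances at least `k`. -/
def IsNet {V : Type*} (G : SimpleGraph V) (k : ℕ) (S : Set V) : Prop :=
  Maximal (fun T : Set V => T.Pairwise (fun u v => k ≤ G.dist u v)) S

/-- the `k`-net graph on `S` -/
def netGraph {V : Type*} (G : SimpleGraph V) (k : ℕ) (S : Set V) : SimpleGraph S :=
  SimpleGraph.fromRel (fun u v => G.dist u v ≤ 2 * k)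

/-- edges with exactly one endpoint in `A` -/
def bdry {W : Type*} (H : SimpleGraph W) (A : Finset W) : Set (Sym2 W) :=
  {e | e ∈ H.edgeSet ∧ ∃ a ∈ A, ∃ b ∉ A, e = s(a, b)}

/-- edge Cheeger constant -/
noncomputable def cheeger {W : Type*} (H : SimpleGraph W) : ENNReal :=
  ⨅ (A : Finset W) (_ : A.Nonempty), ((bdry H A).encard : ENNReal) / (A.card : ENNReal)

theorem result {V : Type*} (G : SimpleGraph V) (d k : ℕ) (hd : 3 ≤ d) (hk : 1 ≤ k)
    (hT : G.IsTree) (hreg : ∀ v, (G.neighborSet v).ncard = d) (S : Set V) (hS : IsNet G k S) :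
    2 ≤ cheeger (netGraph G k S) ∧
    (((d - 1) ^ ((k + 1) / 2 + 1) - 2 : ℕ) : ENNReal) ≤ cheeger (netGraph G k S) := by
  classical
  have main : (((d - 1) ^ ((k + 1) / 2 + 1) - 2 : ℕ) : ENNReal) ≤ cheeger (netGraph G k S) := by
    obtain ⟨r⟩ := hT.connected.nonempty
    obtain ⟨par, h, H1, H2⟩ := Pool.Agent.H.MP_f4bed7_co.T.exists_par hT r
    have hcov : ∀ x, ∃ s ∈ S, G.dist s x < k := by
      intro x
      by_contra hcon
      push Not at hcon
      have hx : x ∈ S := by
        apply hS.2 (y := insert x S) _ (Set.subset_insert _ _) (Set.mem_insert _ _)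
        rw [Set.pairwise_insert]
        refine ⟨hS.1, fun b hb _ => ⟨?_, hcon b hb⟩⟩
        rw [dist_comm]
        exact hcon b hb
      have := hcon x hx
      simp at this
      omega
    unfold cheeger
    refine le_iInf fun A => le_iInf fun hA => ?_
    obtain ⟨P, hP1, hP2⟩ := Pool.Agent.H.MP_f4bed7_co.T.count hT.connected par h H1 H2 d hreg hd
      k hk S hS.1 hcov (A.map (Function.Embedding.subtype _)) (by
        intro a ha
        obtain ⟨b, -, rfl⟩ := Finset.mem_map.mp ha
        exact b.2)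
    rw [Finset.card_map] at hP1
    have hP3 : (P.card : ℕ∞) ≤ (bdry (netGraph G k S) A).encard := by
      have h1 : (P : Set (V × V)).encard ≤
          ((Sym2.map Subtype.val) '' bdry (netGraph G k S) A).encard := by
        apply Set.encard_le_encard_of_injOn (f := fun p => s(p.1, p.2))
        · intro p hp
          obtain ⟨a1, a2, a3, a4⟩ := hP2 p hp
          obtain ⟨a, ha, e⟩ := Finset.mem_map.mp a1
          have e' : (a : V) = p.1 := e
          have nb : (⟨p.2, a2⟩ : S) ∉ A := fun hb => a3 (Finset.mem_map.mpr ⟨_, hb, rfl⟩)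
          refine ⟨s(a, ⟨p.2, a2⟩), ⟨?_, a, ha, _, nb, rfl⟩, by simp [e']⟩
          simp only [netGraph, mem_edgeSet, fromRel_adj]
          refine ⟨fun e2 => nb (e2 ▸ ha), Or.inl ?_⟩
          rw [e']
          exact a4
        · intro p hp q hq e
          obtain ⟨a1, -, a3, -⟩ := hP2 p hp
          obtain ⟨b1, -, b3, -⟩ := hP2 q hq
          rcases Sym2.eq_iff.mp e with ⟨e1, e2⟩ | ⟨e1, e2⟩
          · exact Prod.ext e1 e2
          · exact absurd (e1 ▸ a1) b3
      rw [Set.encard_coe_eq_coe_finsetCard] at h1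
      exact h1.trans (Set.encard_image_le _ _)
    have hA0 : (A.card : ENNReal) ≠ 0 := by
      have := hA.card_pos
      exact_mod_cast this.ne'
    rw [ENNReal.le_div_iff_mul_le (Or.inl hA0) (Or.inl (ENNReal.natCast_ne_top _))]
    calc _ = (((((d - 1) ^ ((k + 1) / 2 + 1) - 2) * A.card : ℕ) : ℕ∞) : ENNReal) := by
          push_cast; rfl
      _ ≤ ((P.card : ℕ∞) : ENNReal) := by exact_mod_cast hP1
      _ ≤ _ := by exact_mod_cast hP3
  refine ⟨le_trans ?_ main, main⟩
  have h1 : 2 ^ 2 ≤ (d - 1) ^ ((k + 1) / 2 + 1) :=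
    calc 2 ^ 2 ≤ (d - 1) ^ 2 := Nat.pow_le_pow_left (by omega) _
      _ ≤ _ := Nat.pow_le_pow_right (by omega) (by omega)
  have h2 : 2 ≤ (d - 1) ^ ((k + 1) / 2 + 1) - 2 := by omega
  exact_mod_cast h2

end Pool.Agent.Results.MP_f4bed7_co.Tree
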